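import Pool.Agent.UL7.Stmts
import Pool.Agent.Helper7_UL4.LPG
import Pool.Agent.Helper88_UL3.LPD

/-!
# Squad UL7, row HLF

Problem MP_c7c9bf_co.  The body and its halves (adapted from `Helper31_UL5/TOP.lean`).
-/

set_option autoImplicit false

namespace Pool.Agent.UL7.H26

open MeasureTheory Set Pool.Agent.UL3 Pool.Agent.UL4 Pool.Agent.UL5 Pool.Agent.UL7

theorem cmp {r d V : ℝ} (hd : 0 < d)
    (h : 32 * Real.sqrt 3 / (9 * r ^ 2) * d ≤ V) : 4 * Real.sqrt 3 / (9 * r ^ 2) ≤ V / (8 * d) := by
  rw [le_div_iff₀ (by positivity)]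
  calc 4 * Real.sqrt 3 / (9 * r ^ 2) * (8 * d) = 32 * Real.sqrt 3 / (9 * r ^ 2) * d := by ring
    _ ≤ V := h

/-- a half of a centrally symmetric body with a good lattice -/
theorem half {r : ℝ} {D K : Set E3} {c m : E3} (hD : IsCompact D) (hDc : Convex ℝ D)
    (hDs : ∀ x ∈ D, (2 : ℝ) • c - x ∈ D) (hm : m ≠ 0)
    (hK : K = {x | x ∈ D ∧ 0 ≤ inner ℝ (x - c) m}) (hi : (interior K).Nonempty) (hg : Good7 r D) :
    ∃ f : ℕ → (E3 ≃ᵢ E3),
      (∀ i j : ℕ, i ≠ j → Disjoint (interior ((f i) '' K)) (interior ((f j) '' K))) ∧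
      ENNReal.ofReal (4 * Real.sqrt 3 / (9 * r ^ 2)) ≤ Filter.limsup
        (fun R : ℝ => volume ((⋃ i : ℕ, (f i) '' K) ∩ Metric.ball (0 : E3) R) /
          volume (Metric.ball (0 : E3) R)) Filter.atTop := by
  have hclosed : IsClosed {x : E3 | 0 ≤ inner ℝ (x - c) m} :=
    isClosed_le continuous_const (by fun_prop)
  have hK' : K = D ∩ {x : E3 | 0 ≤ inner ℝ (x - c) m} := by
    rw [hK]; rfl
  have hKD : K ⊆ D := by
    rw [hK']
    exact inter_subset_left
  have hKc : IsCompact K := by
    rw [hK']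
    exact hD.inter_right hclosed
  have hhalf : Convex ℝ {x : E3 | 0 ≤ inner ℝ (x - c) m} := by
    intro x hx y hy a b ha hb hab
    change 0 ≤ inner ℝ (x - c) m at hx
    change 0 ≤ inner ℝ (y - c) m at hy
    change 0 ≤ inner ℝ (a • x + b • y - c) m
    have h1 : a • x + b • y - c = a • (x - c) + b • (y - c) := by
      have : c = (a + b) • c := by rw [hab, one_smul]
      nth_rewrite 1 [this]
      module
    rw [h1, inner_add_left, inner_smul_left, inner_smul_left]
    simp only [conj_trivial]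
    positivity
  have hKv : Convex ℝ K := by
    rw [hK']
    exact hDc.inter hhalf
  obtain ⟨v, hv, hd, hdt⟩ := hg
  have hint : interior K ⊆ interior D := interior_mono hKD
  -- the interior of `D` is symmetric
  have hsym : ∀ x ∈ interior D, (2 : ℝ) • c - x ∈ interior D := by
    intro x hx
    have h1 : (fun y => (2 : ℝ) • c - y) ⁻¹' D = D := by
      ext y
      constructor
      · intro hy
        have := hDs _ hy
        simpa using this
      · intro hy
        exact hDs y hy
    have h2 : (fun y => (2 : ℝ) • c - y) ⁻¹' interior D ⊆ interior D := by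
      have h3 : IsOpen ((fun y => (2 : ℝ) • c - y) ⁻¹' interior D) :=
        isOpen_interior.preimage (by fun_prop)
      refine interior_maximal ?_ h3
      intro y hy
      have h4 : y ∈ (fun y => (2 : ℝ) • c - y) ⁻¹' D := preimage_mono interior_subset hy
      rwa [h1] at h4
    apply h2
    show (2 : ℝ) • c - ((2 : ℝ) • c - x) ∈ interior D
    rwa [sub_sub_cancel]
  have hz : ∀ n : Fin 3 → ℤ, c + ∑ i, (n i : ℝ) • v i ∉ interior K := by
    intro n hn
    by_cases h0 : n = 0
    · subst h0
      have h1 : c ∈ interior K := by simpa using hn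
      -- points on the wrong side near `c`
      rw [mem_interior_iff_mem_nhds, Metric.mem_nhds_iff] at h1
      obtain ⟨ε, hε, h2⟩ := h1
      have hmn : 0 < ‖m‖ := norm_pos_iff.2 hm
      have h3 : c - (ε / (2 * ‖m‖)) • m ∈ Metric.ball c ε := by
        rw [Metric.mem_ball, dist_eq_norm]
        have : c - (ε / (2 * ‖m‖)) • m - c = -((ε / (2 * ‖m‖)) • m) := by abel
        rw [this, norm_neg, norm_smul, Real.norm_of_nonneg (by positivity)]
        have : ε / (2 * ‖m‖) * ‖m‖ = ε / 2 := by
          field_simp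
        rw [this]
        linarith
      have h4 := h2 h3
      rw [hK] at h4
      have h5 := h4.2
      have h6 : c - (ε / (2 * ‖m‖)) • m - c = -((ε / (2 * ‖m‖)) • m) := by abel
      rw [h6, inner_neg_left, inner_smul_left, real_inner_self_eq_norm_sq] at h5
      simp only [conj_trivial] at h5
      have h7 : 0 < ε / (2 * ‖m‖) * ‖m‖ ^ 2 := by positivity
      linarith
    · have h1 : c + ∑ i, (n i : ℝ) • v i ∈ interior D := hint hn
      have h2 := hsym _ h1
      refine Set.disjoint_left.1 (hd n h0) h1 ⟨_, h2, ?_⟩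
      show (2 : ℝ) • c - (c + ∑ i, (n i : ℝ) • v i) + (2 : ℝ) • ∑ i, (n i : ℝ) • v i = _
      module
  have hdK : ∀ n : Fin 3 → ℤ, n ≠ 0 → Disjoint (interior K)
      ((fun x => x + (2 : ℝ) • ∑ i, (n i : ℝ) • v i) '' interior K) := fun n hn =>
    (hd n hn).mono hint (image_mono hint)
  obtain ⟨f, -, hf2, hf3⟩   := Pool.Agent.UL4.H7.lpg K v c hKc hKv hi hv hdK hz
  -- the volume
  have hvol : V D ≤ 2 * V K := by
    have hsub : D ⊆ K ∪ (fun y => (2 : ℝ) • c - y) '' K := by
      intro x hx
      by_cases h : 0 ≤ inner ℝ (x - c) m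
      · left
        rw [hK]
        exact ⟨hx, h⟩
      · right
        refine ⟨(2 : ℝ) • c - x, ?_, ?_⟩
        · rw [hK]
          refine ⟨hDs x hx, ?_⟩
          have h1 : (2 : ℝ) • c - x - c = -(x - c) := by module
          rw [h1, inner_neg_left]
          linarith [not_le.1 h]
        · show (2 : ℝ) • c - ((2 : ℝ) • c - x) = x
          rw [sub_sub_cancel]
    have hrefl : (volume : Measure E3) ((fun y => (2 : ℝ) • c - y) '' K) = volume K := by
      have h0 : (fun y : E3 => (2 : ℝ) • c - y) '' K =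
          (fun y : E3 => y + (2 : ℝ) • c) '' (Neg.neg '' K) := by
        rw [image_image]
        refine image_congr fun y _ => ?_
        abel
      rw [h0, image_add_right, measure_preimage_add_right, image_neg_eq_neg, Measure.measure_neg]
    have h1 : (volume : Measure E3) D ≤ volume K + volume K :=
      le_trans (measure_mono hsub) (le_trans (measure_union_le _ _) (by rw [hrefl]))
    have h2 : (volume : Measure E3) K ≠ ⊤ := hKc.measure_ne_top
    unfold V
    rw [Measure.real, Measure.real]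
    have h3 := ENNReal.toReal_mono (ENNReal.add_ne_top.2 ⟨h2, h2⟩) h1
    rw [ENNReal.toReal_add h2 h2] at h3
    linarith
  refine ⟨f, hf2, le_trans (ENNReal.ofReal_le_ofReal ?_) hf3⟩
  have h9 : V K / (4 * dt v) = 2 * V K / (8 * dt v) := by
    have := hv.ne'
    field_simp
    ring
  rw [h9]
  exact cmp hv (le_trans hdt hvol)

theorem hlf : HlfStmt := by
  intro r D c _ hD hDc hDi hDs hg
  refine ⟨?_, fun m hm hi => half hD hDc hDs hm rfl hi hg⟩
  obtain ⟨v, hv, hd, hdt⟩ := hg
  obtain ⟨f, hf2, hf3⟩ := Pool.Agent.UL3.H88.lpd D v hD hDc hDi hv hd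
  exact ⟨f, hf2, le_trans (ENNReal.ofReal_le_ofReal (cmp hv hdt)) hf3⟩

end Pool.Agent.UL7.H26
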